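import Pool.Agent.N522.AM.Main

/-!
# `MP_c71c7a_nt`: finite generation in top weight, a window of degrees suffices
-/

namespace Pool.Agent.Results.MP_c71c7a_nt.WindowOfDegrees

open Pool.Agent.N522.AM

/-- Q1 for the objects of the class `S`. -/
def Q1 (T : Theory) (S : T.Obj → Prop) : Prop :=
  ∀ X, S X → ∀ i : ℤ, 0 ≤ i → i ≤ 2 * (T.dim X : ℤ) → AddGroup.FG (T.H X (T.dim X) i)

/-- Let `S` be a class of proper regular connected arithmetic schemes closed under `X ↦ X × ℙ^r` and
containing those that are projective and flat over `ℤ`, and let `κ < 2`.  Q1 for `S` is equivalent to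
its part in the degrees `i ≥ κ d`, and to finite generation for all `X` in `S`, all weights `n ≥ d`
and all degrees `i ≤ 2n` (the groups are then zero for `i < 0`), and this implies the same for all
smooth projective varieties over finite fields in weights `n > d`. -/
theorem result (T : Theory) (hT : Facts T) (S : T.Obj → Prop) (hS : Class T S) (κ : ℚ)
    (hκ : κ < 2) :
    (Q1 T S ↔ Window T S 0 0 κ) ∧
    (Q1 T S ↔ AllWeights T S 0 0 ∧ Vanishing T S 0 ∧
      AllWeights T T.FiniteField 1 0 ∧ Vanishing T T.FiniteField 1) := by
  have h1 := main T hT S hS 0 0 κ hκ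
  have h2 := main T hT S hS 0 0 0 (by norm_num)
  have h3 : Q1 T S ↔ Window T S 0 0 0 := by
    constructor
    · intro h X hX i hi _ hi'
      refine h X hX i hi ?_
      push_cast at hi'
      linarith
    · intro h X hX i hi hi'
      refine h X hX i hi ?_ ?_
      · rw [zero_mul]; exact_mod_cast hi
      · push_cast
        linarith
  exact ⟨h3.trans (h2.trans h1.symm), h3.trans h2⟩

end Pool.Agent.Results.MP_c71c7a_nt.WindowOfDegrees
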